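import Pool.Agent.Work.MP_31af1e_lc.Fin
import Pool.Agent.Work.MP_31af1e_lc.ASM
import Pool.Agent.Work.MP_31af1e_lc.SA1
import Pool.Agent.Work.MP_31af1e_lc.SA2
import Pool.Agent.Work.MP_31af1e_lc.SA3
import Pool.Agent.Work.PolyTime.NPClose

/-!
COLOURING is solvable in polynomial time on (gem, P2+P3)-free graphs.

`gemGraph`, `p2p3Graph`, `IndFree` are defined in `Pool.Agent.Work.MP_31af1e_lc.Fin`,
`graphOf` in `Pool.Agent.Work.MP_c4d05f_lc.Final`, polynomial-time computability (with the machines
`Turing.TM2ComputableInPolyTime` of Mathlib) in `Pool.Agent.Work.PolyTime.ETR`.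
-/

set_option autoImplicit false

namespace Pool.Agent.Results.MP_31af1e_lc.GemP2P3Colouring

open Pool.Agent.Work.PolyTime
open Pool.Agent.Work.MP_c4d05f_lc (Inp graphOf)
open GP

/-! Encoding of instances by bit strings. -/

/-- A number is written in unary, `n` as `1010...100`. -/
def encNum : ℕ → List Bool
  | 0 => [false]
  | n + 1 => true :: false :: encNum n

/-- A list of edges is written by writing `1`, `1` and the two ends before each of its elements and
`0` at the end. -/
def encEdges : List (ℕ × ℕ) → List Bool
  | [] => [false]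
  | e :: l => true :: ((true :: (encNum e.1 ++ encNum e.2)) ++ encEdges l)

/-- The code of a binary digit. -/
def encBit : Bool → List Bool
  | false => [false]
  | true => [true, false, false]

/-- The code of a list of binary digits. -/
def encBits : List Bool → List Bool
  | [] => [false]
  | b :: l => true :: (encBit b ++ encBits l)

/-- The bit string of an instance: the number of vertices, the list of edges, and the binary digits
of the number of colours. -/
def encInst (n : ℕ) (E : List (ℕ × ℕ)) (w : List Bool) : List Bool :=
  true :: ((true :: (encNum n ++ encEdges E)) ++ encBits w)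

/-- The number with given binary digits, least significant digit first. -/
def binVal : List Bool → ℕ
  | [] => 0
  | b :: l => 2 * binVal l + b.toNat

/-! The encoding is the one used in the proof. -/

theorem encNum_eq (n : ℕ) : encNum n = (code n).ser := by
  induction n with
  | zero => rfl
  | succ n ih => rw [encNum, ih]; rfl

theorem encEdges_eq (l : List (ℕ × ℕ)) : encEdges l = (code l).ser := by
  induction l with
  | nil => rfl
  | cons e l ih =>
    rw [encEdges, ih, encNum_eq, encNum_eq]
    rfl

theorem encBits_eq (l : List Bool) : encBits l = (code l).ser := by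
  induction l with
  | nil => rfl
  | cons b l ih =>
    rw [encBits, ih]
    cases b <;> rfl

theorem encInst_eq (n : ℕ) (E : List (ℕ × ℕ)) (w : List Bool) :
    encInst n E w = (code (((n, E), w) : Inp × List Bool)).ser := by
  rw [encInst, encNum_eq, encEdges_eq, encBits_eq]
  rfl

/-- The minimum of the value of a list of digits and `n`. -/
def minVal (n : ℕ) (l : List Bool) : ℕ :=
  l.reverse.foldl (fun v b => min (2 * v + b.toNat) n) 0

theorem minVal_eq (n : ℕ) (l : List Bool) : minVal n l = min (binVal l) n := by
  induction l with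
  | nil => simp [minVal, binVal]
  | cons b l ih =>
    have h1 : minVal n (b :: l) = min (2 * minVal n l + b.toNat) n := by
      simp [minVal]
    rw [h1, ih, binVal]
    rcases le_total (binVal l) n with h | h
    · rw [min_eq_left h]
    · rw [min_eq_right h]
      have h2 : n ≤ 2 * n + b.toNat := by omega
      have h3 : n ≤ 2 * binVal l + b.toNat := by omega
      rw [min_eq_right h2, min_eq_right h3]

theorem ptime_toNat {α : Type} [Code α] {b : α → Bool} (hb : PTime b) :
    PTime (fun a => (b a).toNat) := by
  have h := PTime.cond hb (PTime.const (α := α) 1) (PTime.const (α := α) 0)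
  refine h.code_congr (fun a => ?_)
  cases b a <;> rfl

theorem ptime_minVal {α : Type} [Code α] {n : α → ℕ} {l : α → List Bool} (hn : PTime n)
    (hl : PTime l) : PTime (fun a => minVal (n a) (l a)) := by
  unfold minVal
  have hstep : PTime (fun x : α × ℕ × Bool => min (2 * x.2.1 + x.2.2.toNat) (n x.1)) := by
    have h1 : PTime (fun x : α × ℕ × Bool => x.2.2.toNat) :=
      ptime_toNat (PTime.snd.comp PTime.snd)
    exact PTime.natMin (PTime.natAdd (PTime.natMul (PTime.const 2) (PTime.fst.comp PTime.snd)) h1)
      (hn.comp PTime.fst)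
  refine PTime.foldl (f := fun x : α × ℕ × Bool => min (2 * x.2.1 + x.2.2.toNat) (n x.1))
    (PTime.reverse hl) (PTime.const 0) hstep (B := fun a => 2 * n a + 1)
    ((PB.const 2).mul (hn.sz_le.mono fun a => by simp; omega) |>.add (PB.const 1)) ?_
  intro x l' _
  have hb : ∀ (l' : List Bool) (v : ℕ), v ≤ n x →
      l'.foldl (fun s b => min (2 * s + b.toNat) (n x)) v ≤ n x := by
    intro l'
    induction l' with
    | nil => intro v hv; exact hv
    | cons b l' ih =>
      intro v _
      rw [List.foldl_cons]
      exact ih _ (min_le_right _ _)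
  have := hb l' 0 (Nat.zero_le _)
  rw [sz_nat]
  simp only at this ⊢
  omega

/-- A test of inputs decided in polynomial time gives a test of words. -/
theorem word_test {t : Inp × List Bool → Bool} (ht : PTime t) : ∃ f : List Bool → Bool,
    PolyTimeComputable (fun w => [f w]) ∧
    ∀ (n : ℕ) (E : List (ℕ × ℕ)) (w : List Bool), f (encInst n E w) = t ((n, E), w) := by
  refine ⟨fun w => ((parseW (Inp × List Bool) w).bind fun b => some (t b)).getD false, ?_, ?_⟩
  · refine polyTimeComputable_of_PTime_word ?_
    refine PTime.cons ?_ (PTime.const [])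
    exact PTime.parseTest (t := fun (_ : List Bool) (b : Inp × List Bool) => t b) PTime.id
      (ht.comp PTime.snd)
  · intro n E w
    simp only [encInst_eq, parseW_ser, Option.bind_some, Option.getD_some]

/-- **Main theorem.** COLOURING (with the number of colours as a part of the input) is solvable in
polynomial time on (gem, P2+P3)-free graphs. -/
theorem result : ∃ f : List Bool → Bool, PolyTimeComputable (fun w => [f w]) ∧
    ∀ (n : ℕ) (E : List (ℕ × ℕ)) (w : List Bool),
      IndFree gemGraph (graphOf n E) → IndFree p2p3Graph (graphOf n E) →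
        (f (encInst n E w) = true ↔ (graphOf n E).Colorable (binVal w)) := by
  obtain ⟨N, hN⟩ := main_comb
  obtain ⟨t1, ht1, h1⟩ := sa1
  obtain ⟨t2, ht2, h2⟩ := sa2
  obtain ⟨t3, ht3, h3⟩ := sa3 N
  have hr : PTime (fun x : Inp × List Bool => ((x.1, minVal x.1.1 x.2) : Inp × ℕ)) :=
    PTime.prodMk PTime.fst (ptime_minVal (PTime.fst.comp PTime.fst) PTime.snd)
  obtain ⟨f, hf, hf1⟩ := word_test (t := fun x => t1 (x.1, minVal x.1.1 x.2) &&
    (t2 (x.1, minVal x.1.1 x.2) && t3 (x.1, minVal x.1.1 x.2)))
    (PTime.and (ht1.comp hr) (PTime.and (ht2.comp hr) (ht3.comp hr)))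
  refine ⟨f, hf, fun n E w hg hp => ?_⟩
  have hc : Cls (graphOf n E) := ⟨noGem_of_free hg, noPP_of_free hp⟩
  rw [hf1, ← col_iff_colorable, ← col_min, hN (Fin n) (graphOf n E) _ hc]
  simp only [Bool.and_eq_true]
  rw [h1 n E _ hc.gem, h2 n E _ hc, h3 n E, minVal_eq]

end Pool.Agent.Results.MP_31af1e_lc.GemP2P3Colouring
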